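import Pool.Agent.ALD.Main

/-!
MP_f28aa3_pr, Q1: almost surely the Aldous diffusion has, at no time, a point of degree five or
more, and at no time two points of degree four.
-/

open MeasureTheory
open scoped NNReal

noncomputable section

namespace Pool.Agent.Results.MP_f28aa3_pr.NoExceptionalDegrees

open Pool.Agent.ALD

/-- Let `X` be an Aldous diffusion. Almost surely, for every time `t`, all points of the tree `X t`
have degree at most four, and at most one point of `X t` has degree four. -/
theorem result {Ω : Type*} [MeasurableSpace Ω] {P : Measure Ω} [IsProbabilityMeasure P]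
    {X : ℝ≥0 → Ω → RWTree} (h : IsAldousDiffusion P X) :
    ∀ᵐ ω ∂P, ∀ t : ℝ≥0, (∀ x : (X t ω).pt, degree (X t ω) x ≤ 4) ∧
      ∀ x x' : (X t ω).pt, degree (X t ω) x = 4 → degree (X t ω) x' = 4 → x = x' :=
  main_theorem h

end Pool.Agent.Results.MP_f28aa3_pr.NoExceptionalDegrees
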